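import Mathlib

/-!
Condition `(L_k)` (nonnegativity of the Lichnerowicz curvature term on symmetric
`k`-tensors) is not monotone in `k`: we exhibit a Riemannian metric on an open ball
of `ℝ⁴` which satisfies `(L_3)` at every point but violates `(L_2)` at the origin.
-/

namespace Pool.Agent.Results.MP_9e0eae_gt.NotMonotone

open Finset Topology

/-- A field of `n × n` matrices on `ℝⁿ`: the components `g_ij(x)` of a metric in
the standard coordinates. -/
abbrev Met (n : ℕ) := (Fin n → ℝ) → Matrix (Fin n) (Fin n) ℝ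

/-- `g` is a smooth Riemannian metric on the open set `U`. -/
def IsRiemannian {n : ℕ} (g : Met n) (U : Set (Fin n → ℝ)) : Prop :=
  (∀ i j, ContDiffOn ℝ (⊤ : ℕ∞) (fun x => g x i j) U) ∧ ∀ x ∈ U, (g x).PosDef

/-- The partial derivative `∂_i f (x)`. -/
noncomputable def pd {n : ℕ} (i : Fin n) (f : (Fin n → ℝ) → ℝ) (x : Fin n → ℝ) : ℝ :=
  fderiv ℝ f x (Pi.single i 1)

/-- The Christoffel symbol `Γ^m_{ij}` of the Levi-Civita connection of `g`. -/
noncomputable def Gam {n : ℕ} (g : Met n) (m i j : Fin n) (x : Fin n → ℝ) : ℝ :=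
  (1 / 2) * ∑ l, (g x)⁻¹ m l *
    (pd i (fun y => g y j l) x + pd j (fun y => g y i l) x - pd l (fun y => g y i j) x)

/-- The `m`-th component of `R(∂_a, ∂_c) ∂_d`, where
`R(X,Y) = ∇_X ∇_Y - ∇_Y ∇_X - ∇_{[X,Y]}`. -/
noncomputable def Rm {n : ℕ} (g : Met n) (a c d m : Fin n) (x : Fin n → ℝ) : ℝ :=
  pd a (Gam g m c d) x - pd c (Gam g m a d) x +
    ∑ p, (Gam g m a p x * Gam g p c d x - Gam g m c p x * Gam g p a d x)

/-- The component `(R(∂_a,∂_c) T)(∂_{J 1}, …, ∂_{J k})`, where `R(X,Y)` acts on the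
`(0,k)`-tensor `T` (given by its components) as a derivation. -/
noncomputable def curvAct {n k : ℕ} (g : Met n) (x : Fin n → ℝ) (a c : Fin n)
    (T : (Fin k → Fin n) → ℝ) (J : Fin k → Fin n) : ℝ :=
  -∑ j, ∑ m, Rm g a c (J j) m x * T (Function.update J j m)

/-- The components of `Ric_L(T)`:
`Ric_L(T)(X_1,…,X_k) = ∑_i ∑_a (R(e_a,X_i)T)(X_1,…,e_a,…,X_k)`, the trace over an
orthonormal basis being `∑_{a,b} g^{ab}` in coordinates. -/
noncomputable def RicL {n k : ℕ} (g : Met n) (x : Fin n → ℝ)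
    (T : (Fin k → Fin n) → ℝ) (I : Fin k → Fin n) : ℝ :=
  ∑ i, ∑ a, ∑ b, (g x)⁻¹ a b * curvAct g x a (I i) T (Function.update I i b)

/-- The inner product of `(0,k)`-tensors at `x` induced by `g`. -/
noncomputable def ip {n k : ℕ} (g : Met n) (x : Fin n → ℝ)
    (S T : (Fin k → Fin n) → ℝ) : ℝ :=
  ∑ I, ∑ J, (∏ a, (g x)⁻¹ (I a) (J a)) * S I * T J

/-- `T` is symmetric. -/
def IsSymmTensor {n k : ℕ} (T : (Fin k → Fin n) → ℝ) : Prop :=
  ∀ (σ : Equiv.Perm (Fin k)) (I : Fin k → Fin n), T (I ∘ σ) = T I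

/-- Condition `(L_k)` at the point `x`. -/
def CondL {n : ℕ} (g : Met n) (k : ℕ) (x : Fin n → ℝ) : Prop :=
  ∀ T : (Fin k → Fin n) → ℝ, IsSymmTensor T → 0 ≤ ip g x (RicL g x T) T

/-! ### The metric -/

/-- The sectional curvatures at the origin. -/
noncomputable def K : Fin 4 → Fin 4 → ℝ :=
  ![![0, -1, 20, -1], ![-1, 0, -1, 20], ![20, -1, 0, -1], ![-1, 20, -1, 0]]

/-- The diagonal entries of the metric. -/
noncomputable def f (i : Fin 4) (x : Fin 4 → ℝ) : ℝ := 1 - (1 / 2) * ∑ j, K i j * x j ^ 2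

/-- The metric. -/
noncomputable def G : Met 4 := fun x => Matrix.diagonal fun i => f i x

lemma K_symm (i j : Fin 4) : K i j = K j i := by
  fin_cases i <;> fin_cases j <;> rfl

lemma K_self (i : Fin 4) : K i i = 0 := by
  fin_cases i <;> rfl

lemma f_zero (i : Fin 4) : f i 0 = 1 := by simp [f]

lemma contDiff_f (i : Fin 4) : ContDiff ℝ (⊤ : ℕ∞) (f i) := by
  unfold f; fun_prop

/-- The set where all the diagonal entries are positive. -/
def V : Set (Fin 4 → ℝ) := {x | ∀ i, 0 < f i x}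

lemma isOpen_V : IsOpen V := by
  have : V = ⋂ i, {x | 0 < f i x} := by ext x; simp [V]
  rw [this]
  exact isOpen_iInter_of_finite fun i =>
    isOpen_lt continuous_const (contDiff_f i).continuous

lemma zero_mem_V : (0 : Fin 4 → ℝ) ∈ V := fun i => by rw [f_zero]; norm_num

lemma hasFDerivAt_f (i : Fin 4) (x : Fin 4 → ℝ) :
    HasFDerivAt (f i) (-∑ j, (K i j * x j) • (ContinuousLinearMap.proj j : (Fin 4 → ℝ) →L[ℝ] ℝ)) x := by
  have h : ∀ j : Fin 4, HasFDerivAt (fun y : Fin 4 → ℝ => K i j * y j ^ 2)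
      ((2 * (K i j * x j)) • (ContinuousLinearMap.proj j : (Fin 4 → ℝ) →L[ℝ] ℝ)) x := by
    intro j
    have h1 : HasFDerivAt (fun y : Fin 4 → ℝ => y j)
        (ContinuousLinearMap.proj j : (Fin 4 → ℝ) →L[ℝ] ℝ) x :=
      (ContinuousLinearMap.proj j : (Fin 4 → ℝ) →L[ℝ] ℝ).hasFDerivAt
    have h2 := (h1.pow 2).const_mul (K i j)
    refine h2.congr_fderiv ?_
    ext v
    simp
    ring
  have h3 := (HasFDerivAt.fun_sum (u := Finset.univ) fun j _ => h j).const_mul (1 / 2)
  have h4 := h3.const_sub 1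
  refine h4.congr_fderiv ?_
  ext v
  simp [Finset.mul_sum]
  refine Finset.sum_congr rfl fun j _ => ?_
  ring

lemma pd_f (l i : Fin 4) (x : Fin 4 → ℝ) : pd l (f i) x = -(K i l * x l) := by
  unfold pd
  rw [(hasFDerivAt_f i x).fderiv]
  simp [Pi.single_apply]

lemma pd_zero (l : Fin 4) (x : Fin 4 → ℝ) : pd l (fun _ => (0 : ℝ)) x = 0 := by
  unfold pd; simp

lemma pd_G (l i j : Fin 4) (x : Fin 4 → ℝ) :
    pd l (fun y => G y i j) x = if i = j then -(K i l * x l) else 0 := by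
  by_cases h : i = j
  · subst h
    have : (fun y => G y i i) = f i := by ext y; simp [G]
    rw [this, pd_f]; simp
  · have : (fun y => G y i j) = fun _ => 0 := by ext y; simp [G, h]
    rw [this, pd_zero]; simp [h]

lemma inv_G {x : Fin 4 → ℝ} (hx : x ∈ V) :
    (G x)⁻¹ = Matrix.diagonal fun i => (f i x)⁻¹ := by
  apply Matrix.inv_eq_left_inv
  unfold G
  rw [Matrix.diagonal_mul_diagonal]
  rw [← Matrix.diagonal_one]
  congr 1
  ext i
  exact inv_mul_cancel₀ (ne_of_gt (hx i))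

/-- The linear numerator of the Christoffel symbol. -/
noncomputable def N (m i j : Fin 4) (x : Fin 4 → ℝ) : ℝ :=
  (1 / 2) * ((if j = m then -(K j i * x i) else 0) + (if i = m then -(K i j * x j) else 0)
    - (if i = j then -(K i m * x m) else 0))

lemma Gam_eq {x : Fin 4 → ℝ} (hx : x ∈ V) (m i j : Fin 4) :
    Gam G m i j x = (f m x)⁻¹ * N m i j x := by
  unfold Gam N
  rw [inv_G hx]
  simp only [pd_G]
  rw [Finset.sum_eq_single m]
  · simp
    ring
  · intro b _ hb
    simp [Matrix.diagonal_apply_ne' _ hb]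
  · simp

lemma contDiff_N (m i j : Fin 4) : ContDiff ℝ (⊤ : ℕ∞) (N m i j) := by
  unfold N
  split_ifs <;> fun_prop

lemma N_zero (m i j : Fin 4) : N m i j 0 = 0 := by simp [N]

/-- The Christoffel symbols on `V`. -/
noncomputable def GamE (m i j : Fin 4) (x : Fin 4 → ℝ) : ℝ := (f m x)⁻¹ * N m i j x

lemma contDiffOn_GamE (m i j : Fin 4) : ContDiffOn ℝ (⊤ : ℕ∞) (GamE m i j) V := by
  unfold GamE
  exact ((contDiff_f m).contDiffOn.inv (s := V) fun x (hx : x ∈ V) => ne_of_gt (hx m)).mul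
    (contDiff_N m i j).contDiffOn

lemma Gam_eventuallyEq {x : Fin 4 → ℝ} (hx : x ∈ V) (m i j : Fin 4) :
    Gam G m i j =ᶠ[𝓝 x] GamE m i j := by
  filter_upwards [isOpen_V.mem_nhds hx] with y hy
  exact Gam_eq hy m i j

lemma pd_Gam {x : Fin 4 → ℝ} (hx : x ∈ V) (a m i j : Fin 4) :
    pd a (Gam G m i j) x = pd a (GamE m i j) x := by
  unfold pd
  rw [(Gam_eventuallyEq hx m i j).fderiv_eq]

lemma continuousOn_pd_GamE (a m i j : Fin 4) : ContinuousOn (pd a (GamE m i j)) V := by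
  have h := (contDiffOn_GamE m i j).continuousOn_fderiv_of_isOpen isOpen_V (by simp)
  exact h.clm_apply continuousOn_const

/-- The explicit curvature on `V`. -/
noncomputable def RmE (a c d m : Fin 4) (x : Fin 4 → ℝ) : ℝ :=
  pd a (GamE m c d) x - pd c (GamE m a d) x +
    ∑ p, (GamE m a p x * GamE p c d x - GamE m c p x * GamE p a d x)

lemma Rm_eq {x : Fin 4 → ℝ} (hx : x ∈ V) (a c d m : Fin 4) :
    Rm G a c d m x = RmE a c d m x := by
  unfold Rm RmE
  rw [pd_Gam hx, pd_Gam hx]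
  simp only [Gam_eq hx, GamE]

lemma continuousOn_RmE (a c d m : Fin 4) : ContinuousOn (RmE a c d m) V := by
  unfold RmE
  refine ((continuousOn_pd_GamE _ _ _ _).sub (continuousOn_pd_GamE _ _ _ _)).add ?_
  refine continuousOn_finsetSum _ fun p _ => ?_
  exact ((contDiffOn_GamE _ _ _).continuousOn.mul (contDiffOn_GamE _ _ _).continuousOn).sub
    ((contDiffOn_GamE _ _ _).continuousOn.mul (contDiffOn_GamE _ _ _).continuousOn)

lemma continuousAt_Rm (a c d m : Fin 4) : ContinuousAt (Rm G a c d m) 0 := by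
  have h1 : ContinuousAt (RmE a c d m) 0 :=
    (continuousOn_RmE a c d m).continuousAt (isOpen_V.mem_nhds zero_mem_V)
  refine h1.congr ?_
  filter_upwards [isOpen_V.mem_nhds zero_mem_V] with y hy
  exact (Rm_eq hy a c d m).symm

lemma continuousAt_inv (a b : Fin 4) : ContinuousAt (fun x => (G x)⁻¹ a b) 0 := by
  have h1 : ContinuousAt (fun x => (Matrix.diagonal fun i => (f i x)⁻¹) a b) 0 := by
    by_cases h : a = b
    · subst h
      simp only [Matrix.diagonal_apply_eq]
      exact (contDiff_f a).continuous.continuousAt.inv₀ (by rw [f_zero]; norm_num)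
    · simp only [Matrix.diagonal_apply_ne _ h]
      exact continuousAt_const
  refine h1.congr ?_
  filter_upwards [isOpen_V.mem_nhds zero_mem_V] with y hy
  rw [inv_G hy]

lemma inv_G_zero : (G 0)⁻¹ = 1 := by
  rw [inv_G zero_mem_V]
  simp [f_zero]

/-- The derivative of the Christoffel symbols at the origin. -/
lemma pd_GamE_zero (a m i j : Fin 4) :
    pd a (GamE m i j) 0 = N m i j (Pi.single a 1) := by
  have hf : HasFDerivAt (fun x => (f m x)⁻¹) (fderiv ℝ (fun x => (f m x)⁻¹) 0) 0 := by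
    apply DifferentiableAt.hasFDerivAt
    exact ((contDiff_f m).differentiable (by simp)).differentiableAt.inv (by rw [f_zero]; norm_num)
  have hN : HasFDerivAt (N m i j) (fderiv ℝ (N m i j) 0) 0 := by
    apply DifferentiableAt.hasFDerivAt
    exact ((contDiff_N m i j).differentiable (by simp)).differentiableAt
  have h := hf.mul hN
  have e : pd a (GamE m i j) 0 = fderiv ℝ (N m i j) 0 (Pi.single a 1) := by
    unfold pd
    have : GamE m i j = (fun x => (f m x)⁻¹) * N m i j := rfl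
    rw [this, h.fderiv]
    simp [N_zero, f_zero]
  rw [e]
  -- N is linear
  let L : (Fin 4 → ℝ) →ₗ[ℝ] ℝ :=
    { toFun := N m i j
      map_add' := by
        intro x y
        unfold N
        split_ifs <;> simp <;> ring
      map_smul' := by
        intro r x
        unfold N
        split_ifs <;> simp <;> ring }
  have hL : N m i j = (LinearMap.toContinuousLinearMap L : (Fin 4 → ℝ) → ℝ) := rfl
  conv_lhs => rw [hL]
  rw [ContinuousLinearMap.fderiv]
  rfl

lemma Rm_zero (a c d m : Fin 4) :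
    Rm G a c d m 0 = K a c * ((if c = d ∧ m = a then 1 else 0) - (if a = d ∧ m = c then 1 else 0)) := by
  rw [Rm_eq zero_mem_V]
  unfold RmE
  simp only [pd_GamE_zero]
  have h0 : ∀ m i j, GamE m i j 0 = 0 := by intro m i j; simp [GamE, N_zero]
  simp only [h0]
  simp only [N, Pi.single_apply]
  fin_cases a <;> fin_cases c <;> fin_cases d <;> fin_cases m <;> norm_num [K]

/-! ### Tensors -/

/-- The quadratic form `T ↦ g(Ric_L T, T)`. -/
noncomputable def Q (k : ℕ) (x : Fin 4 → ℝ) (T : (Fin k → Fin 4) → ℝ) : ℝ := ip G x (RicL G x T) T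

lemma continuousAt_Q (k : ℕ) (T : (Fin k → Fin 4) → ℝ) :
    ContinuousAt (fun z : (Fin 4 → ℝ) × ((Fin k → Fin 4) → ℝ) => Q k z.1 z.2) (0, T) := by
  have hinv : ∀ a b : Fin 4, ContinuousAt
      (fun z : (Fin 4 → ℝ) × ((Fin k → Fin 4) → ℝ) => (G z.1)⁻¹ a b) (0, T) := by
    intro a b
    exact (ContinuousAt.comp (f := fun z : (Fin 4 → ℝ) × ((Fin k → Fin 4) → ℝ) => z.1)
      (g := fun x => (G x)⁻¹ a b) (x := (0, T)) (continuousAt_inv a b) continuousAt_fst)
  have hRm : ∀ a c d m : Fin 4, ContinuousAt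
      (fun z : (Fin 4 → ℝ) × ((Fin k → Fin 4) → ℝ) => Rm G a c d m z.1) (0, T) := by
    intro a c d m
    exact (ContinuousAt.comp (f := fun z : (Fin 4 → ℝ) × ((Fin k → Fin 4) → ℝ) => z.1)
      (g := fun x => Rm G a c d m x) (x := (0, T)) (continuousAt_Rm a c d m) continuousAt_fst)
  have hT : ∀ I : Fin k → Fin 4, ContinuousAt
      (fun z : (Fin 4 → ℝ) × ((Fin k → Fin 4) → ℝ) => z.2 I) (0, T) := by
    intro I
    exact ((continuous_apply I).comp continuous_snd).continuousAt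
  unfold Q ip RicL curvAct
  refine tendsto_finsetSum _ fun I _ => tendsto_finsetSum _ fun J _ => ?_
  refine Filter.Tendsto.mul (Filter.Tendsto.mul ?_ ?_) (hT J)
  · exact tendsto_finsetProd _ fun a _ => hinv _ _
  · refine tendsto_finsetSum _ fun i _ => tendsto_finsetSum _ fun a _ =>
      tendsto_finsetSum _ fun b _ => ?_
    refine Filter.Tendsto.mul (hinv _ _) ?_
    refine Filter.Tendsto.neg ?_
    refine tendsto_finsetSum _ fun j _ => tendsto_finsetSum _ fun m _ => ?_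
    exact Filter.Tendsto.mul (hRm _ _ _ _) (hT _)

lemma RicL_smul {n k : ℕ} (g : Met n) (x : Fin n → ℝ) (r : ℝ) (T : (Fin k → Fin n) → ℝ)
    (I : Fin k → Fin n) : RicL g x (r • T) I = r * RicL g x T I := by
  unfold RicL curvAct
  simp only [Finset.mul_sum, Pi.smul_apply, smul_eq_mul]
  refine Finset.sum_congr rfl fun i _ => Finset.sum_congr rfl fun a _ =>
    Finset.sum_congr rfl fun b _ => ?_
  rw [mul_neg, mul_neg, mul_neg]
  congr 1
  simp only [Finset.mul_sum]
  refine Finset.sum_congr rfl fun j _ => Finset.sum_congr rfl fun m _ => ?_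
  ring

lemma Q_smul (k : ℕ) (x : Fin 4 → ℝ) (r : ℝ) (T : (Fin k → Fin 4) → ℝ) :
    Q k x (r • T) = r ^ 2 * Q k x T := by
  unfold Q ip
  simp only [RicL_smul, Finset.mul_sum, Pi.smul_apply, smul_eq_mul]
  refine Finset.sum_congr rfl fun I _ => Finset.sum_congr rfl fun J _ => ?_
  ring

lemma isClosed_symm (k : ℕ) : IsClosed {T : (Fin k → Fin 4) → ℝ | IsSymmTensor T} := by
  have : {T : (Fin k → Fin 4) → ℝ | IsSymmTensor T} =
      ⋂ σ : Equiv.Perm (Fin k), ⋂ I : Fin k → Fin 4, {T | T (I ∘ σ) = T I} := by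
    ext T; simp [IsSymmTensor]
  rw [this]
  exact isClosed_iInter fun σ => isClosed_iInter fun I =>
    isClosed_eq (continuous_apply _) (continuous_apply _)

/-- Strict positivity at the origin spreads to a neighbourhood. -/
lemma eventually_CondL (k : ℕ)
    (hpos : ∀ T : (Fin k → Fin 4) → ℝ, IsSymmTensor T → T ≠ 0 → 0 < Q k 0 T) :
    ∀ᶠ x in 𝓝 (0 : Fin 4 → ℝ), CondL G k x := by
  have hK : IsCompact ({T : (Fin k → Fin 4) → ℝ | IsSymmTensor T} ∩ Metric.sphere 0 1) :=
    (isCompact_sphere _ _).inter_left (isClosed_symm k)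
  have h := hK.eventually_forall_of_forall_eventually (x₀ := (0 : Fin 4 → ℝ))
    (P := fun x T => 0 < Q k x T) (by
      intro T hT
      have hne : T ≠ 0 := by
        intro h0
        have := hT.2
        rw [h0] at this
        simp at this
      exact (continuousAt_Q k T).eventually (lt_mem_nhds (hpos T hT.1 hne)))
  filter_upwards [h] with x hx T hT
  by_cases h0 : T = 0
  · have : Q k x T = 0 := by
      have := Q_smul k x 0 T
      simp only [zero_smul] at this
      rw [h0, this]; ring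
    exact le_of_eq this.symm
  · have hn : 0 < ‖T‖ := norm_pos_iff.mpr h0
    have hs : IsSymmTensor (‖T‖⁻¹ • T) := by
      intro σ I
      simp [hT σ I]
    have h1 := hx (‖T‖⁻¹ • T) ⟨hs, by simp [norm_smul, hn.ne']⟩
    rw [Q_smul] at h1
    have h2 : 0 < Q k x T := by
      have h3 : (0:ℝ) < ‖T‖⁻¹ ^ 2 := by positivity
      exact (mul_pos_iff_of_pos_left h3).mp h1
    exact h2.le

lemma ip_zero {k : ℕ} (S T : (Fin k → Fin 4) → ℝ) : ip G 0 S T = ∑ I, S I * T I := by
  unfold ip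
  rw [inv_G_zero]
  refine Finset.sum_congr rfl fun I _ => ?_
  rw [Finset.sum_eq_single I]
  · simp
  · intro J _ hJ
    have : ∃ a, I a ≠ J a := by
      by_contra hcon
      push Not at hcon
      exact hJ (funext fun a => (hcon a).symm)
    obtain ⟨a, ha⟩ := this
    have : (∏ a, (1 : Matrix (Fin 4) (Fin 4) ℝ) (I a) (J a)) = 0 :=
      Finset.prod_eq_zero (Finset.mem_univ a) (Matrix.one_apply_ne ha)
    rw [this]; ring
  · simp

lemma curvAct_zero {k : ℕ} (a c : Fin 4) (T : (Fin k → Fin 4) → ℝ) (J : Fin k → Fin 4) :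
    curvAct G 0 a c T J = -∑ j, K a c * ((if c = J j then T (Function.update J j a) else 0)
      - (if a = J j then T (Function.update J j c) else 0)) := by
  unfold curvAct
  congr 1
  refine Finset.sum_congr rfl fun j _ => ?_
  simp only [Rm_zero]
  simp only [mul_assoc, sub_mul, ← Finset.mul_sum, Finset.sum_sub_distrib]
  congr 1
  congr 1
  · by_cases h : c = J j <;> simp [h]
  · by_cases h : a = J j <;> simp [h]

lemma RicL_zero {k : ℕ} (T : (Fin k → Fin 4) → ℝ) (I : Fin k → Fin 4) :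
    RicL G 0 T I = ∑ i, ∑ a, curvAct G 0 a (I i) T (Function.update I i a) := by
  unfold RicL
  rw [inv_G_zero]
  refine Finset.sum_congr rfl fun i _ => Finset.sum_congr rfl fun a _ => ?_
  rw [Finset.sum_eq_single a]
  · simp
  · intro b _ hb
    rw [Matrix.one_apply_ne hb.symm]; ring
  · simp

/-! ### Two-tensors -/

lemma sum_two (F : (Fin 2 → Fin 4) → ℝ) : ∑ I, F I = ∑ p, ∑ q, F ![p, q] := by
  rw [← Fintype.sum_prod_type' (f := fun p q => F ![p, q])]
  refine (Fintype.sum_equiv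
    ⟨fun x : Fin 4 × Fin 4 => (![x.1, x.2] : Fin 2 → Fin 4), fun I => (I 0, I 1),
      fun x => rfl, fun I => by ext i; fin_cases i <;> rfl⟩ _ _ fun x => rfl).symm

lemma sum_three (F : (Fin 3 → Fin 4) → ℝ) : ∑ I, F I = ∑ p, ∑ q, ∑ r, F ![p, q, r] := by
  have h : ∑ I, F I = ∑ x : Fin 4 × Fin 4 × Fin 4, F ![x.1, x.2.1, x.2.2] := by
    refine (Fintype.sum_equiv
      ⟨fun x : Fin 4 × Fin 4 × Fin 4 => (![x.1, x.2.1, x.2.2] : Fin 3 → Fin 4),
        fun I => (I 0, I 1, I 2),
        fun x => rfl, fun I => by ext i; fin_cases i <;> rfl⟩ _ _ fun x => rfl).symm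
  rw [h, Fintype.sum_prod_type]
  refine Finset.sum_congr rfl fun p _ => ?_
  rw [Fintype.sum_prod_type]

lemma up2_0 (p q a : Fin 4) : Function.update ![p, q] 0 a = ![a, q] := by
  ext i; fin_cases i <;> rfl
lemma up2_1 (p q a : Fin 4) : Function.update ![p, q] 1 a = ![p, a] := by
  ext i; fin_cases i <;> rfl
lemma up3_0 (p q r a : Fin 4) : Function.update ![p, q, r] 0 a = ![a, q, r] := by
  ext i; fin_cases i <;> rfl
lemma up3_1 (p q r a : Fin 4) : Function.update ![p, q, r] 1 a = ![p, a, r] := by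
  ext i; fin_cases i <;> rfl
lemma up3_2 (p q r a : Fin 4) : Function.update ![p, q, r] 2 a = ![p, q, a] := by
  ext i; fin_cases i <;> rfl

/-- The two-tensor `diag(1,-1,1,-1)`. -/
noncomputable def h0 : (Fin 2 → Fin 4) → ℝ := fun I =>
  if I 0 = I 1 then ((![1, -1, 1, -1] : Fin 4 → ℝ) (I 0)) else 0

lemma h0_symm : IsSymmTensor h0 := by
  intro σ I
  have hσ : (σ 0 = 0 ∧ σ 1 = 1) ∨ (σ 0 = 1 ∧ σ 1 = 0) := by
    revert σ; decide
  rcases hσ with ⟨h1, h2⟩ | ⟨h1, h2⟩
  · simp [h0, h1, h2]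
  · simp only [h0, Function.comp, h1, h2]
    by_cases h : I 0 = I 1
    · simp [h]
    · rw [if_neg h, if_neg (fun h' => h h'.symm)]

lemma Q_two : Q 2 0 h0 = -32 := by
  unfold Q
  rw [ip_zero, sum_two]
  simp only [RicL_zero, curvAct_zero, Fin.sum_univ_two, up2_0, up2_1, Matrix.cons_val_zero,
    Matrix.cons_val_one, h0]
  simp only [Fin.sum_univ_four, K]
  simp (decide := true)
  norm_num

/-! ### Three-tensors -/

lemma K_sum (p : Fin 4) : ∑ a, K a p = 18 := by
  fin_cases p <;> simp [Fin.sum_univ_four, K] <;> norm_num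

lemma swap01 {T : (Fin 3 → Fin 4) → ℝ} (hT : IsSymmTensor T) (p q r : Fin 4) :
    T ![q, p, r] = T ![p, q, r] := by
  rw [← hT (Equiv.swap 0 1) ![p, q, r]]
  congr 1
  ext i; fin_cases i <;> rfl

lemma swap12 {T : (Fin 3 → Fin 4) → ℝ} (hT : IsSymmTensor T) (p q r : Fin 4) :
    T ![p, r, q] = T ![p, q, r] := by
  rw [← hT (Equiv.swap 1 2) ![p, q, r]]
  congr 1
  ext i; fin_cases i <;> rfl

lemma swap02 {T : (Fin 3 → Fin 4) → ℝ} (hT : IsSymmTensor T) (p q r : Fin 4) :
    T ![r, q, p] = T ![p, q, r] := by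
  rw [← hT (Equiv.swap 0 2) ![p, q, r]]
  congr 1
  ext i; fin_cases i <;> rfl

lemma term0 {T : (Fin 3 → Fin 4) → ℝ} (hT : IsSymmTensor T) (p q r : Fin 4) :
    ∑ a, curvAct G 0 a p T ![a, q, r] = 18 * T ![p, q, r] + (K p q + K p r) * T ![p, q, r]
      - (if p = q then ∑ a, K a p * T ![a, a, r] else 0)
      - (if p = r then ∑ a, K a p * T ![a, a, q] else 0) := by
  have h1 : ∀ a, curvAct G 0 a p T ![a, q, r] = K a p * T ![p, q, r]
      + (if a = q then K a p * T ![p, q, r] else 0) + (if a = r then K a p * T ![p, q, r] else 0)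
      - (if p = q then K a p * T ![a, a, r] else 0)
      - (if p = r then K a p * T ![a, a, q] else 0) := by
    intro a
    rw [curvAct_zero]
    simp only [Fin.sum_univ_three, up3_0, up3_1, up3_2]
    have e0 : (![a, q, r] : Fin 3 → Fin 4) 0 = a := rfl
    have e1 : (![a, q, r] : Fin 3 → Fin 4) 1 = q := rfl
    have e2 : (![a, q, r] : Fin 3 → Fin 4) 2 = r := rfl
    rw [e0, e1, e2]
    have h2 : K a p * (if p = a then T ![a, q, r] else 0) = 0 := by
      by_cases h : p = a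
      · subst h; rw [K_self]; ring
      · rw [if_neg h]; ring
    have h3 : (if a = q then T ![a, p, r] else 0) = (if a = q then T ![p, q, r] else 0) := by
      by_cases h : a = q
      · subst h; simp only [if_true]; exact swap01 hT _ _ _
      · rw [if_neg h, if_neg h]
    have h4 : (if a = r then T ![a, q, p] else 0) = (if a = r then T ![p, q, r] else 0) := by
      by_cases h : a = r
      · subst h; simp only [if_true]; exact swap02 hT _ _ _
      · rw [if_neg h, if_neg h]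
    have h5 : T ![a, q, a] = T ![a, a, q] := swap12 hT _ _ _
    rw [h3, h4, h5]
    simp only [if_true]
    have h6 : ∀ (P : Prop) [Decidable P] (u v : ℝ), (if P then u * v else 0) = u * (if P then v else 0) := by
      intro P _ u v; split_ifs <;> ring
    simp only [h6]
    linear_combination -h2
  simp only [h1, Finset.sum_add_distrib, Finset.sum_sub_distrib]
  rw [← Finset.sum_mul, K_sum, Finset.sum_ite_eq' Finset.univ q, Finset.sum_ite_eq' Finset.univ r]
  simp only [Finset.mem_univ, if_true]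
  rw [K_symm q p, K_symm r p]
  have h7 : ∀ (P : Prop) [Decidable P] (u : Fin 4 → ℝ),
      (∑ a, if P then u a else 0) = if P then ∑ a, u a else 0 := by
    intro P _ u; split_ifs <;> simp
  rw [h7, h7]
  ring

lemma curvAct_three (T : (Fin 3 → Fin 4) → ℝ) (a c p q r : Fin 4) :
    curvAct G 0 a c T ![p, q, r] =
      -(K a c * ((if c = p then T ![a, q, r] else 0) - (if a = p then T ![c, q, r] else 0))
      + K a c * ((if c = q then T ![p, a, r] else 0) - (if a = q then T ![p, c, r] else 0))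
      + K a c * ((if c = r then T ![p, q, a] else 0) - (if a = r then T ![p, q, c] else 0))) := by
  rw [curvAct_zero]
  simp only [Fin.sum_univ_three, up3_0, up3_1, up3_2]
  rfl

lemma curvAct_symm01 {T : (Fin 3 → Fin 4) → ℝ} (hT : IsSymmTensor T) (a c p q r : Fin 4) :
    curvAct G 0 a c T ![p, q, r] = curvAct G 0 a c T ![q, p, r] := by
  rw [curvAct_three, curvAct_three]
  rw [swap01 hT a q r, swap01 hT c q r, swap01 hT p a r, swap01 hT p c r, swap01 hT q p a,
    swap01 hT q p c]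
  ring

lemma curvAct_symm02 {T : (Fin 3 → Fin 4) → ℝ} (hT : IsSymmTensor T) (a c p q r : Fin 4) :
    curvAct G 0 a c T ![p, q, r] = curvAct G 0 a c T ![r, q, p] := by
  rw [curvAct_three, curvAct_three]
  rw [swap02 hT a q r, swap02 hT c q r, swap02 hT p q a, swap02 hT p q c, swap02 hT p a r,
    swap02 hT p c r]
  ring

lemma RicL_three {T : (Fin 3 → Fin 4) → ℝ} (hT : IsSymmTensor T) (p q r : Fin 4) :
    RicL G 0 T ![p, q, r] = (54 + 2 * (K p q + K p r + K q r)) * T ![p, q, r]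
      - 2 * ((if p = q then ∑ a, K a p * T ![a, a, r] else 0)
      + (if p = r then ∑ a, K a p * T ![a, a, q] else 0)
      + (if q = r then ∑ a, K a q * T ![a, a, p] else 0)) := by
  rw [RicL_zero]
  simp only [Fin.sum_univ_three, up3_0, up3_1, up3_2]
  simp only [Matrix.cons_val_zero, Matrix.cons_val_one, Matrix.cons_val]
  have e1 : ∑ a, curvAct G 0 a q T ![p, a, r] = ∑ a, curvAct G 0 a q T ![a, p, r] :=
    Finset.sum_congr rfl fun a _ => curvAct_symm01 hT _ _ _ _ _
  have e2 : ∑ a, curvAct G 0 a r T ![p, q, a] = ∑ a, curvAct G 0 a r T ![a, q, p] :=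
    Finset.sum_congr rfl fun a _ => curvAct_symm02 hT _ _ _ _ _
  rw [e1, e2, term0 hT, term0 hT, term0 hT, swap01 hT p q r, swap02 hT p q r, K_symm q p, K_symm r q,
    K_symm r p]
  have i1 : (if q = p then ∑ a, K a q * T ![a, a, r] else 0)
      = (if p = q then ∑ a, K a p * T ![a, a, r] else 0) := by
    by_cases h : p = q
    · subst h; rfl
    · rw [if_neg h, if_neg (fun h' => h h'.symm)]
  have i2 : (if r = p then ∑ a, K a r * T ![a, a, q] else 0)
      = (if p = r then ∑ a, K a p * T ![a, a, q] else 0) := by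
    by_cases h : p = r
    · subst h; rfl
    · rw [if_neg h, if_neg (fun h' => h h'.symm)]
  have i3 : (if r = q then ∑ a, K a r * T ![a, a, p] else 0)
      = (if q = r then ∑ a, K a q * T ![a, a, p] else 0) := by
    by_cases h : q = r
    · subst h; rfl
    · rw [if_neg h, if_neg (fun h' => h h'.symm)]
  rw [i1, i2, i3]
  ring

lemma Q_three {T : (Fin 3 → Fin 4) → ℝ} (hT : IsSymmTensor T) :
    Q 3 0 T = ∑ p, ∑ q, ∑ r, (54 + 2 * (K p q + K p r + K q r)) * T ![p, q, r] ^ 2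
      - 6 * ∑ p, ∑ r, ∑ a, K a p * T ![a, a, r] * T ![p, p, r] := by
  unfold Q
  rw [ip_zero, sum_three]
  have h1 : ∀ p q r, RicL G 0 T ![p, q, r] * T ![p, q, r] =
      (54 + 2 * (K p q + K p r + K q r)) * T ![p, q, r] ^ 2
      - 2 * (if p = q then ∑ a, K a p * T ![a, a, r] * T ![p, p, r] else 0)
      - 2 * (if p = r then ∑ a, K a p * T ![a, a, q] * T ![p, p, q] else 0)
      - 2 * (if q = r then ∑ a, K a q * T ![a, a, p] * T ![q, q, p] else 0) := by
    intro p q r
    rw [RicL_three hT]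
    have i1 : (if p = q then ∑ a, K a p * T ![a, a, r] else 0) * T ![p, q, r] =
        (if p = q then ∑ a, K a p * T ![a, a, r] * T ![p, p, r] else 0) := by
      by_cases h : p = q
      · subst h; simp only [if_true, Finset.sum_mul]
      · rw [if_neg h, if_neg h]; ring
    have i2 : (if p = r then ∑ a, K a p * T ![a, a, q] else 0) * T ![p, q, r] =
        (if p = r then ∑ a, K a p * T ![a, a, q] * T ![p, p, q] else 0) := by
      by_cases h : p = r
      · subst h; simp only [if_true, Finset.sum_mul]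
        rw [swap12 hT p p q]
      · rw [if_neg h, if_neg h]; ring
    have i3 : (if q = r then ∑ a, K a q * T ![a, a, p] else 0) * T ![p, q, r] =
        (if q = r then ∑ a, K a q * T ![a, a, p] * T ![q, q, p] else 0) := by
      by_cases h : q = r
      · subst h; simp only [if_true, Finset.sum_mul]
        rw [swap02 hT p q q]
      · rw [if_neg h, if_neg h]; ring
    rw [← i1, ← i2, ← i3]
    ring
  simp only [h1, Finset.sum_sub_distrib, ← Finset.mul_sum]
  have j1 : ∑ p : Fin 4, ∑ q : Fin 4, ∑ r : Fin 4,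
      (if p = q then ∑ a, K a p * T ![a, a, r] * T ![p, p, r] else 0) =
      ∑ p, ∑ r, ∑ a, K a p * T ![a, a, r] * T ![p, p, r] := by
    refine Finset.sum_congr rfl fun p _ => ?_
    rw [Finset.sum_comm]
    refine Finset.sum_congr rfl fun r _ => ?_
    rw [Finset.sum_ite_eq]; simp
  have j2 : ∑ p : Fin 4, ∑ q : Fin 4, ∑ r : Fin 4,
      (if p = r then ∑ a, K a p * T ![a, a, q] * T ![p, p, q] else 0) =
      ∑ p, ∑ r, ∑ a, K a p * T ![a, a, r] * T ![p, p, r] := by
    refine Finset.sum_congr rfl fun p _ => ?_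
    refine Finset.sum_congr rfl fun r _ => ?_
    rw [Finset.sum_ite_eq]; simp
  have j3 : ∑ p : Fin 4, ∑ q : Fin 4, ∑ r : Fin 4,
      (if q = r then ∑ a, K a q * T ![a, a, p] * T ![q, q, p] else 0) =
      ∑ p, ∑ r, ∑ a, K a p * T ![a, a, r] * T ![p, p, r] := by
    rw [Finset.sum_comm]
    refine Finset.sum_congr rfl fun p _ => ?_
    refine Finset.sum_congr rfl fun r _ => ?_
    rw [Finset.sum_ite_eq]; simp
  rw [j1, j2, j3]
  ring

/-- The block form: positivity in each of the four blocks of variables. -/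
lemma block (a b c d : ℝ) : 6 * (a ^ 2 + 3 * b ^ 2 + 3 * c ^ 2 + 3 * d ^ 2) ≤
    54 * a ^ 2 + 402 * b ^ 2 + 150 * c ^ 2 + 150 * d ^ 2 - 240 * (a * b) - 240 * (c * d)
      + 12 * (a * c) + 12 * (a * d) + 12 * (b * c) + 12 * (b * d) := by
  have h : 54 * a ^ 2 + 402 * b ^ 2 + 150 * c ^ 2 + 150 * d ^ 2 - 240 * (a * b) - 240 * (c * d)
      + 12 * (a * c) + 12 * (a * d) + 12 * (b * c) + 12 * (b * d)
      - 6 * (a ^ 2 + 3 * b ^ 2 + 3 * c ^ 2 + 3 * d ^ 2) =
      126 * (c - d) ^ 2 + 6 * (a + b + c + d) ^ 2 + 42 * (a - 3 * b) ^ 2 := by ring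
  nlinarith [sq_nonneg (c - d), sq_nonneg (a + b + c + d), sq_nonneg (a - 3 * b)]

lemma cyc1 {T : (Fin 3 → Fin 4) → ℝ} (hT : IsSymmTensor T) (p q r : Fin 4) :
    T ![r, p, q] = T ![p, q, r] := by
  rw [swap01 hT p r q, swap12 hT p q r]

lemma cyc2 {T : (Fin 3 → Fin 4) → ℝ} (hT : IsSymmTensor T) (p q r : Fin 4) :
    T ![q, r, p] = T ![p, q, r] := by
  rw [swap02 hT p r q, swap12 hT p q r]

lemma Q_three_ge {T : (Fin 3 → Fin 4) → ℝ} (hT : IsSymmTensor T) :
    6 * ∑ I, T I ^ 2 ≤ Q 3 0 T := by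
  rw [Q_three hT, sum_three]
  have e010 : T ![0, 1, 0] = T ![0, 0, 1] := swap12 hT 0 0 1
  have e020 : T ![0, 2, 0] = T ![0, 0, 2] := swap12 hT 0 0 2
  have e021 : T ![0, 2, 1] = T ![0, 1, 2] := swap12 hT 0 1 2
  have e030 : T ![0, 3, 0] = T ![0, 0, 3] := swap12 hT 0 0 3
  have e031 : T ![0, 3, 1] = T ![0, 1, 3] := swap12 hT 0 1 3
  have e032 : T ![0, 3, 2] = T ![0, 2, 3] := swap12 hT 0 2 3
  have e100 : T ![1, 0, 0] = T ![0, 0, 1] := swap02 hT 0 0 1
  have e101 : T ![1, 0, 1] = T ![0, 1, 1] := swap01 hT 0 1 1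
  have e102 : T ![1, 0, 2] = T ![0, 1, 2] := swap01 hT 0 1 2
  have e103 : T ![1, 0, 3] = T ![0, 1, 3] := swap01 hT 0 1 3
  have e110 : T ![1, 1, 0] = T ![0, 1, 1] := swap02 hT 0 1 1
  have e120 : T ![1, 2, 0] = T ![0, 1, 2] := cyc2 hT 0 1 2
  have e121 : T ![1, 2, 1] = T ![1, 1, 2] := swap12 hT 1 1 2
  have e130 : T ![1, 3, 0] = T ![0, 1, 3] := cyc2 hT 0 1 3
  have e131 : T ![1, 3, 1] = T ![1, 1, 3] := swap12 hT 1 1 3
  have e132 : T ![1, 3, 2] = T ![1, 2, 3] := swap12 hT 1 2 3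
  have e200 : T ![2, 0, 0] = T ![0, 0, 2] := swap02 hT 0 0 2
  have e201 : T ![2, 0, 1] = T ![0, 1, 2] := cyc1 hT 0 1 2
  have e202 : T ![2, 0, 2] = T ![0, 2, 2] := swap01 hT 0 2 2
  have e203 : T ![2, 0, 3] = T ![0, 2, 3] := swap01 hT 0 2 3
  have e210 : T ![2, 1, 0] = T ![0, 1, 2] := swap02 hT 0 1 2
  have e211 : T ![2, 1, 1] = T ![1, 1, 2] := swap02 hT 1 1 2
  have e212 : T ![2, 1, 2] = T ![1, 2, 2] := swap01 hT 1 2 2
  have e213 : T ![2, 1, 3] = T ![1, 2, 3] := swap01 hT 1 2 3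
  have e220 : T ![2, 2, 0] = T ![0, 2, 2] := swap02 hT 0 2 2
  have e221 : T ![2, 2, 1] = T ![1, 2, 2] := swap02 hT 1 2 2
  have e230 : T ![2, 3, 0] = T ![0, 2, 3] := cyc2 hT 0 2 3
  have e231 : T ![2, 3, 1] = T ![1, 2, 3] := cyc2 hT 1 2 3
  have e232 : T ![2, 3, 2] = T ![2, 2, 3] := swap12 hT 2 2 3
  have e300 : T ![3, 0, 0] = T ![0, 0, 3] := swap02 hT 0 0 3
  have e301 : T ![3, 0, 1] = T ![0, 1, 3] := cyc1 hT 0 1 3
  have e302 : T ![3, 0, 2] = T ![0, 2, 3] := cyc1 hT 0 2 3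
  have e303 : T ![3, 0, 3] = T ![0, 3, 3] := swap01 hT 0 3 3
  have e310 : T ![3, 1, 0] = T ![0, 1, 3] := swap02 hT 0 1 3
  have e311 : T ![3, 1, 1] = T ![1, 1, 3] := swap02 hT 1 1 3
  have e312 : T ![3, 1, 2] = T ![1, 2, 3] := cyc1 hT 1 2 3
  have e313 : T ![3, 1, 3] = T ![1, 3, 3] := swap01 hT 1 3 3
  have e320 : T ![3, 2, 0] = T ![0, 2, 3] := swap02 hT 0 2 3
  have e321 : T ![3, 2, 1] = T ![1, 2, 3] := swap02 hT 1 2 3
  have e322 : T ![3, 2, 2] = T ![2, 2, 3] := swap02 hT 2 2 3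
  have e323 : T ![3, 2, 3] = T ![2, 3, 3] := swap01 hT 2 3 3
  have e330 : T ![3, 3, 0] = T ![0, 3, 3] := swap02 hT 0 3 3
  have e331 : T ![3, 3, 1] = T ![1, 3, 3] := swap02 hT 1 3 3
  have e332 : T ![3, 3, 2] = T ![2, 3, 3] := swap02 hT 2 3 3
  have k00 : K 0 0 = 0 := by simp [K]
  have k01 : K 0 1 = -1 := by simp [K]
  have k02 : K 0 2 = 20 := by simp [K]
  have k03 : K 0 3 = -1 := by simp [K]
  have k10 : K 1 0 = -1 := by simp [K]
  have k11 : K 1 1 = 0 := by simp [K]
  have k12 : K 1 2 = -1 := by simp [K]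
  have k13 : K 1 3 = 20 := by simp [K]
  have k20 : K 2 0 = 20 := by simp [K]
  have k21 : K 2 1 = -1 := by simp [K]
  have k22 : K 2 2 = 0 := by simp [K]
  have k23 : K 2 3 = -1 := by simp [K]
  have k30 : K 3 0 = -1 := by simp [K]
  have k31 : K 3 1 = 20 := by simp [K]
  have k32 : K 3 2 = -1 := by simp [K]
  have k33 : K 3 3 = 0 := by simp [K]
  simp only [Fin.sum_univ_four]
  simp only [e010, e020, e021, e030, e031, e032, e100, e101, e102, e103, e110, e120, e121, e130, e131, e132, e200, e201, e202, e203, e210, e211, e212, e213, e220, e221, e230, e231, e232, e300, e301, e302, e303, e310, e311, e312, e313, e320, e321, e322, e323, e330, e331, e332, k00, k01, k02, k03, k10, k11, k12, k13, k20, k21, k22, k23, k30, k31, k32, k33]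
  have b0 := block (T ![0, 0, 0]) (T ![0, 2, 2]) (T ![0, 1, 1]) (T ![0, 3, 3])
  have b1 := block (T ![1, 1, 1]) (T ![1, 3, 3]) (T ![0, 0, 1]) (T ![1, 2, 2])
  have b2 := block (T ![2, 2, 2]) (T ![0, 0, 2]) (T ![1, 1, 2]) (T ![2, 3, 3])
  have b3 := block (T ![3, 3, 3]) (T ![1, 1, 3]) (T ![0, 0, 3]) (T ![2, 2, 3])
  have s0 := sq_nonneg (T ![0, 1, 2])
  have s1 := sq_nonneg (T ![0, 1, 3])
  have s2 := sq_nonneg (T ![0, 2, 3])
  have s3 := sq_nonneg (T ![1, 2, 3])
  linarith

lemma Q_three_pos (T : (Fin 3 → Fin 4) → ℝ) (hT : IsSymmTensor T) (h0 : T ≠ 0) :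
    0 < Q 3 0 T := by
  refine lt_of_lt_of_le ?_ (Q_three_ge hT)
  obtain ⟨I, hI⟩ := Function.ne_iff.mp h0
  have : 0 < ∑ I, T I ^ 2 :=
    Finset.sum_pos' (fun I _ => sq_nonneg _) ⟨I, Finset.mem_univ _, by
      have : T I ≠ 0 := hI
      positivity⟩
  linarith

/-- **Condition `(L_3)` does not imply condition `(L_2)`.** There is a smooth Riemannian
metric on a (connected) open ball of `ℝ⁴` which satisfies `(L_3)` at every point, but
does not satisfy `(L_2)`, as it fails at the centre. -/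
theorem result : ∃ (r : ℝ) (g : Met 4), 0 < r ∧ IsRiemannian g (Metric.ball 0 r) ∧
    (∀ x ∈ Metric.ball (0 : Fin 4 → ℝ) r, CondL g 3 x) ∧ ¬ CondL g 2 0 := by
  have h1 := eventually_CondL 3 Q_three_pos
  have h2 : ∀ᶠ x in 𝓝 (0 : Fin 4 → ℝ), x ∈ V := isOpen_V.mem_nhds zero_mem_V
  obtain ⟨r, hr, hball⟩ := Metric.eventually_nhds_iff_ball.mp (h1.and h2)
  refine ⟨r, G, hr, ⟨?_, ?_⟩, fun x hx => (hball x hx).1, ?_⟩
  · intro i j
    by_cases h : i = j
    · subst h
      have : (fun x => G x i i) = f i := by ext y; simp [G]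
      rw [this]
      exact (contDiff_f i).contDiffOn
    · have : (fun y => G y i j) = fun _ => 0 := by ext y; simp [G, h]
      rw [this]
      exact contDiffOn_const
  · intro x hx
    exact Matrix.PosDef.diagonal fun i => (hball x hx).2 i
  · intro hcon
    have := hcon h0 h0_symm
    have h3 : Q 2 0 h0 = -32 := Q_two
    unfold Q at h3
    linarith

end Pool.Agent.Results.MP_9e0eae_gt.NotMonotone
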